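import Pool.Agent.Helper24.LD.Defs

/-! # LD: P5 -/

set_option autoImplicit false

namespace Pool.Agent.Helper46.LD
open Pool.Agent.Helper24.LD Finset

section gen
variable {α β : Type} [Fintype α] [DecidableEq α] [Fintype β] [DecidableEq β]

/-- the number of bijections mapping `A` onto `T` depends only on the size of `T` -/
lemma card_fiber_eq (A : Finset α) (T T' : Finset β) (h : T.card = T'.card) :
    (univ.filter fun σ : α ≃ β => A.map σ.toEmbedding = T).card =
      (univ.filter fun σ : α ≃ β => A.map σ.toEmbedding = T').card := by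
  obtain ⟨π, hπ⟩ := Equiv.Perm.exists_map_finset_eq T T' h
  refine card_bij (fun σ _ => σ.trans π) ?_ ?_ ?_
  · intro σ hσ
    simp only [mem_filter, mem_univ, true_and] at hσ ⊢
    rw [← hπ, ← hσ, map_map]
    rfl
  · intro σ₁ _ σ₂ _ he
    ext x
    have := congrArg (fun e : α ≃ β => e x) he
    simpa using this
  · intro σ hσ
    simp only [mem_filter, mem_univ, true_and] at hσ
    refine ⟨σ.trans π.symm, ?_, ?_⟩
    · simp only [mem_filter, mem_univ, true_and]
      have h1 : (T.map π.toEmbedding).map π.symm.toEmbedding = T := by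
        ext x; simp
      rw [← h1, hπ, ← hσ, map_map]
      rfl
    · ext x; simp

/-- the number of bijections mapping `A` into a family of sets of the same size -/
lemma card_family (A : Finset α) (TT : Finset (Finset β)) (hTT : ∀ T ∈ TT, T.card = A.card)
    (hc : Fintype.card α = Fintype.card β) :
    ((univ.filter fun σ : α ≃ β => A.map σ.toEmbedding ∈ TT).card : ℝ) =
      TT.card * (Fintype.card (α ≃ β)) / (Fintype.card β).choose A.card := by
  obtain ⟨σ₀⟩ : Nonempty (α ≃ β) := Fintype.card_eq.1 hc
  set T₀ := A.map σ₀.toEmbedding with hT₀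
  have hT₀c : T₀.card = A.card := card_map _
  set f := (univ.filter fun σ : α ≃ β => A.map σ.toEmbedding = T₀).card with hf
  have h1 : Fintype.card (α ≃ β) = (Fintype.card β).choose A.card * f := by
    have h2 : (univ : Finset (α ≃ β)).card =
        ∑ T ∈ powersetCard A.card (univ : Finset β),
          (univ.filter fun σ : α ≃ β => A.map σ.toEmbedding = T).card :=
      card_eq_sum_card_fiberwise (f := fun σ : α ≃ β => A.map σ.toEmbedding)
        (fun σ _ => by simp [mem_powersetCard])
    rw [card_univ] at h2
    rw [h2, sum_congr rfl (fun T hT => card_fiber_eq A T T₀ (by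
      rw [hT₀c]; exact (mem_powersetCard.1 hT).2)), sum_const, card_powersetCard, card_univ,
      smul_eq_mul]
  have h3 : (univ.filter fun σ : α ≃ β => A.map σ.toEmbedding ∈ TT).card = TT.card * f := by
    have h4 : (univ.filter fun σ : α ≃ β => A.map σ.toEmbedding ∈ TT).card =
        ∑ T ∈ TT, ((univ.filter fun σ : α ≃ β => A.map σ.toEmbedding ∈ TT).filter
          fun σ : α ≃ β => A.map σ.toEmbedding = T).card :=
      card_eq_sum_card_fiberwise (f := fun σ : α ≃ β => A.map σ.toEmbedding)
        (fun σ hσ => (mem_filter.1 hσ).2)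
    rw [h4, ← smul_eq_mul, ← sum_const]
    refine sum_congr rfl fun T hT => ?_
    rw [hf, ← card_fiber_eq A T T₀ (by rw [hT₀c]; exact hTT T hT), filter_filter]
    congr 1
    ext σ
    simp only [mem_filter, mem_univ, true_and]
    exact ⟨fun h => h.2, fun h => ⟨h ▸ hT, h⟩⟩
  have hch : 0 < (Fintype.card β).choose A.card := by
    apply Nat.choose_pos
    rw [← hT₀c]
    exact card_le_univ _
  rw [h1, h3, eq_div_iff (by exact_mod_cast hch.ne')]
  push_cast
  ring

end gen

/-- target sets of size `k` which meet no row in exactly one point -/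
def TTk (M w k : ℕ) : Finset (Finset (Fin M × Fin w)) :=
  (univ.powersetCard k).filter fun T => ∀ i : Fin M, (T.filter fun b => b.1 = i).card ≠ 1

lemma card_TTk (M w k : ℕ) (hk : k / 2 ≤ M) :
    (TTk M w k).card ≤ M.choose (k / 2) * (k / 2 * w).choose k := by
  classical
  have hsub : TTk M w k ⊆ (powersetCard (k / 2) (univ : Finset (Fin M))).biUnion
      fun R => powersetCard k (R ×ˢ (univ : Finset (Fin w))) := by
    intro T hT
    simp only [TTk, mem_filter, mem_powersetCard] at hT
    obtain ⟨⟨_, hTc⟩, hT1⟩ := hT
    have hrows : 2 * (T.image Prod.fst).card ≤ k := by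
      have h1 : T.card = ∑ i ∈ T.image Prod.fst, (T.filter fun b => b.1 = i).card :=
        card_eq_sum_card_image Prod.fst T
      have h2 : ∑ _i ∈ T.image Prod.fst, 2 ≤
          ∑ i ∈ T.image Prod.fst, (T.filter fun b => b.1 = i).card := by
        refine sum_le_sum fun i hi => ?_
        obtain ⟨b, hb, hbi⟩ := mem_image.1 hi
        have h3 : 0 < (T.filter fun b => b.1 = i).card :=
          card_pos.2 ⟨b, mem_filter.2 ⟨hb, hbi⟩⟩
        have := hT1 i
        omega
      rw [sum_const, smul_eq_mul] at h2
      omega
    obtain ⟨R, hR, hRc⟩ := exists_superset_card_eq (s := T.image Prod.fst) (n := k / 2)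
      (by omega) (by simpa using hk)
    rw [mem_biUnion]
    refine ⟨R, mem_powersetCard.2 ⟨subset_univ _, hRc⟩, mem_powersetCard.2 ⟨fun b hb => ?_, hTc⟩⟩
    exact mem_product.2 ⟨hR (mem_image_of_mem _ hb), mem_univ _⟩
  refine (card_le_card hsub).trans (card_biUnion_le.trans ?_)
  rw [sum_congr rfl (g := fun _ => (k / 2 * w).choose k) (fun R hR => by
    rw [card_powersetCard, card_product, (mem_powersetCard.1 hR).2, card_univ, Fintype.card_fin]),
    sum_const, card_powersetCard, card_univ, Fintype.card_fin, smul_eq_mul]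

/-- P5 -/
theorem p5 : S_P5 := by
  classical
  intro N c M w g hcard hc hg hN hgN
  have hcN : Fintype.card (Fin N × Fin c) = Fintype.card (Fin M × Fin w) := by
    simpa using hcard
  obtain ⟨σ₀⟩ : Nonempty (Fin N × Fin c ≃ Fin M × Fin w) := Fintype.card_eq.1 hcN
  set E := Fintype.card (Fin N × Fin c ≃ Fin M × Fin w) with hE
  have hEpos : (0 : ℝ) < E := by
    have : 0 < E := Fintype.card_pos_iff.2 ⟨σ₀⟩
    exact_mod_cast this
  set B : ℕ → ℝ := fun s => (N.choose s : ℝ) * M.choose (c * s / 2) *
    (c * s / 2 * w).choose (c * s) / (N * c).choose (c * s) with hB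
  have key : ∑ σ : Fin N × Fin c ≃ Fin M × Fin w, ∑ s ∈ Icc 1 g, ((badSets σ s).card : ℝ) ≤
      ∑ _σ : Fin N × Fin c ≃ Fin M × Fin w, ∑ s ∈ Icc 1 g, B s := by
    rw [sum_comm, sum_const, card_univ, nsmul_eq_mul, mul_sum]
    refine sum_le_sum fun s hs => ?_
    rw [mem_Icc] at hs
    have hks : c * s / 2 ≤ M := by
      have : c * s ≤ c * g := Nat.mul_le_mul_left c hs.2
      omega
    -- exchange the sums
    have h1 : ∑ σ : Fin N × Fin c ≃ Fin M × Fin w, ((badSets σ s).card : ℝ) =
        ∑ S ∈ powersetCard s (univ : Finset (Fin N)),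
          ((univ.filter fun σ : Fin N × Fin c ≃ Fin M × Fin w =>
            (S ×ˢ (univ : Finset (Fin c))).map σ.toEmbedding ∈ TTk M w (c * s)).card : ℝ) := by
      have e1 : ∀ σ : Fin N × Fin c ≃ Fin M × Fin w, ((badSets σ s).card : ℝ) =
          ∑ S ∈ powersetCard s (univ : Finset (Fin N)),
            if (S ×ˢ (univ : Finset (Fin c))).map σ.toEmbedding ∈ TTk M w (c * s) then (1 : ℝ)
              else 0 := by
        intro σ
        rw [← sum_filter, sum_const, nsmul_eq_mul, mul_one]
        congr 2
        ext S
        simp only [badSets, TTk, mem_filter, mem_powersetCard, and_congr_right_iff]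
        rintro ⟨_, hSc⟩
        constructor
        · intro h
          refine ⟨⟨subset_univ _, ?_⟩, fun i => ?_⟩
          · rw [card_map, card_product, hSc, card_univ, Fintype.card_fin, mul_comm]
          · rw [filter_map, card_map]
            exact h i
        · rintro ⟨_, h⟩ i
          have := h i
          rw [filter_map, card_map] at this
          exact this
      simp_rw [e1]
      rw [sum_comm]
      refine sum_congr rfl fun S _ => ?_
      rw [← sum_filter, sum_const, nsmul_eq_mul, mul_one]
    rw [h1]
    have h2 : ∀ S ∈ powersetCard s (univ : Finset (Fin N)),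
        ((univ.filter fun σ : Fin N × Fin c ≃ Fin M × Fin w =>
            (S ×ˢ (univ : Finset (Fin c))).map σ.toEmbedding ∈ TTk M w (c * s)).card : ℝ) ≤
          (M.choose (c * s / 2) * (c * s / 2 * w).choose (c * s) : ℕ) * E /
            (N * c).choose (c * s) := by
      intro S hS
      have hSc := (mem_powersetCard.1 hS).2
      have hAc : (S ×ˢ (univ : Finset (Fin c))).card = c * s := by
        rw [card_product, hSc, card_univ, Fintype.card_fin, mul_comm]
      rw [card_family _ _ (fun T hT => by
        rw [hAc]; exact (mem_powersetCard.1 (mem_filter.1 hT).1).2) hcN, hAc]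
      have e3 : Fintype.card (Fin M × Fin w) = N * c := by simp [hcard]
      rw [e3]
      apply div_le_div_of_nonneg_right _ (by positivity)
      apply mul_le_mul_of_nonneg_right _ hEpos.le
      exact_mod_cast card_TTk M w (c * s) hks
    refine (sum_le_sum h2).trans (le_of_eq ?_)
    rw [sum_const, card_powersetCard, card_univ, Fintype.card_fin, nsmul_eq_mul]
    simp only [hB]
    push_cast
    ring
  obtain ⟨σ, _, hσ⟩ := exists_le_of_sum_le ⟨σ₀, mem_univ _⟩ key
  exact ⟨σ, hσ⟩

end Pool.Agent.Helper46.LD
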