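import Pool.Agent.Helper24.LD.Defs

/-! # LD: P6a, P6b -/

set_option autoImplicit false

namespace Pool.Agent.Helper46.LD
open Pool.Agent.Helper24.LD Finset

lemma pow_le_three_pow_mul_factorial (k : ℕ) : (k : ℝ) ^ k ≤ 3 ^ k * (k.factorial : ℝ) := by
  have h1 := Real.pow_div_factorial_le_exp (x := (k : ℝ)) (by positivity) k
  have h2 : Real.exp (k : ℝ) ≤ 3 ^ k := by
    rw [← Real.exp_one_pow]
    exact pow_le_pow_left₀ (Real.exp_pos _).le (by linarith [Real.exp_one_lt_three]) k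
  have h3 : (0 : ℝ) < k.factorial := by exact_mod_cast Nat.factorial_pos k
  rw [div_le_iff₀ h3] at h1
  exact h1.trans (mul_le_mul_of_nonneg_right h2 h3.le)

/-- upper bound for binomials -/
lemma choose_le_three (n k : ℕ) (hk : 1 ≤ k) : (n.choose k : ℝ) ≤ (3 * n / k) ^ k := by
  have h1 : (n.choose k : ℝ) ≤ (n : ℝ) ^ k / k.factorial := Nat.choose_le_pow_div k n
  have h3 : (0 : ℝ) < k.factorial := by exact_mod_cast Nat.factorial_pos k
  have hk0 : (0 : ℝ) < k := by exact_mod_cast hk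
  refine h1.trans ?_
  rw [div_pow, mul_pow, div_le_div_iff₀ h3 (by positivity)]
  have := pow_le_three_pow_mul_factorial k
  calc (n : ℝ) ^ k * (k : ℝ) ^ k ≤ (n : ℝ) ^ k * (3 ^ k * (k.factorial : ℝ)) :=
        mul_le_mul_of_nonneg_left this (by positivity)
    _ = _ := by ring

/-- lower bound for binomials -/
lemma pow_le_choose (k : ℕ) : ∀ n : ℕ, k ≤ n → ((n : ℝ) / k) ^ k ≤ n.choose k := by
  induction k with
  | zero => intro n _; simp
  | succ k ih =>
    intro n hn
    obtain ⟨n', rfl⟩ : ∃ n', n = n' + 1 := ⟨n - 1, by omega⟩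
    have hk : k ≤ n' := by omega
    have h1 := ih n' hk
    have h2 : ((n' + 1 : ℕ) : ℝ) * (n'.choose k : ℝ) = ((n' + 1).choose (k + 1) : ℝ) * ((k + 1 : ℕ) : ℝ) := by
      exact_mod_cast Nat.add_one_mul_choose_eq n' k
    have hk1 : (0 : ℝ) < ((k + 1 : ℕ) : ℝ) := by positivity
    have h3 : (((n' + 1 : ℕ) : ℝ) / ((k + 1 : ℕ) : ℝ)) ^ k ≤ ((n' : ℝ) / k) ^ k := by
      rcases Nat.eq_zero_or_pos k with rfl | hk0
      · simp
      · have hk0' : (0 : ℝ) < k := by exact_mod_cast hk0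
        apply pow_le_pow_left₀ (by positivity)
        rw [div_le_div_iff₀ hk1 hk0']
        have : (k : ℝ) ≤ n' := by exact_mod_cast hk
        push_cast
        nlinarith
    rw [pow_succ, mul_div_assoc']
    rw [div_le_iff₀ hk1, ← h2]
    calc (((n' + 1 : ℕ) : ℝ) / ((k + 1 : ℕ) : ℝ)) ^ k * ((n' + 1 : ℕ) : ℝ)
        ≤ (n'.choose k : ℝ) * ((n' + 1 : ℕ) : ℝ) :=
          mul_le_mul_of_nonneg_right (h3.trans h1) (by positivity)
      _ = _ := by ring

/-- P6b -/
theorem p6b : S_P6b := by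
  intro N M w s hNM hs hw hsM hsN
  have e : 2 * s / 2 = s := by omega
  rw [e]
  have hs' : (0 : ℝ) < s := by exact_mod_cast hs
  have hw' : (0 : ℝ) < w := by exact_mod_cast hw
  have hN' : (0 : ℝ) < N := by exact_mod_cast (by omega : 0 < N)
  have hM' : (0 : ℝ) < M := by exact_mod_cast (by omega : 0 < M)
  have hNM' : (N : ℝ) * 2 = M * w := by exact_mod_cast hNM
  have h1 := choose_le_three N s hs
  have h2 := choose_le_three M s hs
  have h3 := choose_le_three (s * w) (2 * s) (by omega)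
  have h4 := pow_le_choose (2 * s) (N * 2) (by omega)
  have h3' : (3 * ((s * w : ℕ) : ℝ) / ((2 * s : ℕ) : ℝ)) = 3 / 2 * w := by
    push_cast
    field_simp
  have h4' : ((N * 2 : ℕ) : ℝ) / ((2 * s : ℕ) : ℝ) = N / s := by
    push_cast
    field_simp
  rw [h3'] at h3
  rw [h4'] at h4
  have hpos : (0 : ℝ) < ((N : ℝ) / s) ^ (2 * s) := by positivity
  have hch : (0 : ℝ) < ((N * 2).choose (2 * s) : ℝ) := lt_of_lt_of_le hpos h4
  rw [div_le_iff₀ hch]
  calc (N.choose s : ℝ) * M.choose s * (s * w).choose (2 * s)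
      ≤ (3 * N / s) ^ s * (3 * M / s) ^ s * (3 / 2 * w) ^ (2 * s) := by
        apply mul_le_mul (mul_le_mul h1 h2 (by positivity) (by positivity)) h3 (by positivity)
          (by positivity)
    _ = ((3 * N / s) * (3 * M / s) * (3 / 2 * w) ^ 2) ^ s := by
        rw [pow_mul, mul_pow _ _ s, mul_pow _ _ s]
    _ ≤ ((41 * w) * (N / s) ^ 2) ^ s := by
        apply pow_le_pow_left₀ (by positivity)
        have hM : (M : ℝ) = N * 2 / w := by field_simp; linarith
        rw [hM]
        have e1 : 3 * (N : ℝ) / s * (3 * (N * 2 / w) / s) * (3 / 2 * w) ^ 2 =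
            (81 / 2 * w) * (N / s) ^ 2 := by
          field_simp
          ring
        rw [e1]
        apply mul_le_mul_of_nonneg_right _ (by positivity)
        nlinarith
    _ = (41 * w) ^ s * ((N : ℝ) / s) ^ (2 * s) := by
        rw [mul_pow, ← pow_mul]
    _ ≤ (41 * w) ^ s * ((N * 2).choose (2 * s) : ℝ) :=
        mul_le_mul_of_nonneg_left h4 (by positivity)

/-- P6a -/
theorem p6a : S_P6a := by
  intro N M w s hNM hs hw hbig
  set r := 3 * s / 2 with hr
  have hrs : s ≤ r := by omega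
  have hr2 : 2 * r ≤ 3 * s := by omega
  have hs' : (0 : ℝ) < s := by exact_mod_cast hs
  have hw' : (0 : ℝ) < w := by exact_mod_cast hw
  have hw1 : (1 : ℝ) ≤ w := by exact_mod_cast hw
  have hs1 : (1 : ℝ) ≤ s := by exact_mod_cast hs
  have hbig' : 1200000 * (w : ℝ) ^ 3 * s ≤ N := by exact_mod_cast hbig
  have hw3 : (1 : ℝ) ≤ (w : ℝ) ^ 3 := one_le_pow₀ hw1
  have hsN' : (s : ℝ) ≤ N := by nlinarith
  have hsN : s ≤ N := by exact_mod_cast hsN'
  have hN' : (0 : ℝ) < N := by linarith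
  have hNM' : (N : ℝ) * 3 = M * w := by exact_mod_cast hNM
  have hM : (M : ℝ) = N * 3 / w := by field_simp; linarith
  have hM' : (0 : ℝ) < M := by rw [hM]; positivity
  have hMs : (s : ℝ) ≤ M := by
    rw [hM, le_div_iff₀ hw']
    have : (w : ℝ) ≤ w ^ 3 := by nlinarith [sq_nonneg ((w : ℝ) - 1)]
    nlinarith
  have h1 := choose_le_three N s hs
  have h2 := choose_le_three M r (by omega)
  have h3 := choose_le_three (r * w) (3 * s) (by omega)
  have h4 := pow_le_choose (3 * s) (N * 3) (by omega)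
  have h4' : ((N * 3 : ℕ) : ℝ) / ((3 * s : ℕ) : ℝ) = N / s := by
    push_cast
    field_simp
  rw [h4'] at h4
  have hr0 : (0 : ℝ) < r := by exact_mod_cast (by omega : 0 < r)
  have hrs' : (s : ℝ) ≤ r := by exact_mod_cast hrs
  have hr2' : 2 * (r : ℝ) ≤ 3 * s := by exact_mod_cast hr2
  have h2' : (M.choose r : ℝ) ≤ (3 * M / s) ^ r := by
    refine h2.trans (pow_le_pow_left₀ (by positivity) ?_ r)
    exact div_le_div_of_nonneg_left (by positivity) hs' hrs'
  have h3' : ((r * w).choose (3 * s) : ℝ) ≤ (3 / 2 * w) ^ (3 * s) := by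
    refine h3.trans (pow_le_pow_left₀ (by positivity) ?_ _)
    push_cast
    rw [div_le_iff₀ (by positivity)]
    nlinarith
  have hpos : (0 : ℝ) < ((N : ℝ) / s) ^ (3 * s) := by positivity
  have hch : (0 : ℝ) < ((N * 3).choose (3 * s) : ℝ) := lt_of_lt_of_le hpos h4
  rw [div_le_iff₀ hch]
  have hsq : ((N.choose s : ℝ) * M.choose r * (r * w).choose (3 * s)) ^ 2 ≤
      ((1 / 4) ^ s * (((N : ℝ) / s) ^ (3 * s))) ^ 2 := by
    calc ((N.choose s : ℝ) * M.choose r * (r * w).choose (3 * s)) ^ 2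
        ≤ ((3 * N / s) ^ s * (3 * M / s) ^ r * (3 / 2 * w) ^ (3 * s)) ^ 2 := by
          apply pow_le_pow_left₀ (by positivity)
          apply mul_le_mul (mul_le_mul h1 h2' (by positivity) (by positivity)) h3' (by positivity)
            (by positivity)
      _ = (3 * (N : ℝ) / s) ^ (2 * s) * (3 * M / s) ^ (2 * r) * (3 / 2 * w) ^ (6 * s) := by
          rw [mul_pow _ _ 2, mul_pow _ _ 2, ← pow_mul, ← pow_mul, ← pow_mul, mul_comm s 2,
            mul_comm r 2, (by ring : 3 * s * 2 = 6 * s)]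
      _ ≤ (3 * (N : ℝ) / s) ^ (2 * s) * (3 * M / s) ^ (3 * s) * (3 / 2 * w) ^ (6 * s) := by
          apply mul_le_mul_of_nonneg_right _ (by positivity)
          apply mul_le_mul_of_nonneg_left _ (by positivity)
          apply pow_le_pow_right₀ _ hr2
          rw [le_div_iff₀ hs']
          linarith
      _ = ((3 * (N : ℝ) / s) ^ 2 * (3 * M / s) ^ 3 * (3 / 2 * w) ^ 6) ^ s := by
          rw [mul_pow _ _ s, mul_pow _ _ s, ← pow_mul, ← pow_mul, ← pow_mul]
      _ ≤ ((1 / 16) * ((N : ℝ) / s) ^ 6) ^ s := by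
          apply pow_le_pow_left₀ (by positivity)
          rw [hM]
          have e1 : (3 * (N : ℝ) / s) ^ 2 * (3 * (N * 3 / w) / s) ^ 3 * (3 / 2 * w) ^ 6 =
              (9 * 729 * 729 / 64) * (w ^ 3 * s) / N * (N / s) ^ 6 := by
            field_simp
            ring
          rw [e1]
          apply mul_le_mul_of_nonneg_right _ (by positivity)
          rw [div_le_iff₀ hN']
          nlinarith
      _ = _ := by
          have e2 : (1 / 4 : ℝ) ^ 2 = 1 / 16 := by norm_num
          rw [mul_pow _ _ s, mul_pow _ _ 2, ← e2, ← pow_mul, ← pow_mul, ← pow_mul, ← pow_mul,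
            mul_comm 2 s, (by ring : 3 * s * 2 = 6 * s)]
  have hle := (pow_le_pow_iff_left₀ (by positivity) (by positivity) (two_ne_zero)).1 hsq
  exact hle.trans (mul_le_mul_of_nonneg_left h4 (by positivity))

end Pool.Agent.Helper46.LD
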